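import Mathlib
import Pool.Agent.Lib.MP_856180_lc.Main

set_option autoImplicit false

namespace Pool.Agent.Lib.MP_856180_lc.Old.BethOmega

open Pool.Agent.Lib.MP_856180_lc

universe u

/-- For every cardinal `μ ≥ ℶ_ω` the dominating number equals `2 ^ μ`. -/
theorem result (μ : Cardinal.{u}) (h : Cardinal.beth Ordinal.omega0 ≤ μ) :
    domNum μ = 2 ^ μ :=
  domNum_of_beth h

end Pool.Agent.Lib.MP_856180_lc.Old.BethOmega
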