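import Mathlib
import Pool.Agent.Lib.MP_856180_lc.AlphaKey

set_option autoImplicit false

namespace Pool.Agent.Lib.MP_856180_lc.Old.Continuum

open Pool.Agent.Lib.MP_856180_lc

universe u

/-- Let `μ` be uncountable of countable cofinality. Then `2 ^ μ` is the maximum of the dominating
number and the cofinality of the subsets of the continuum of size at most `μ`. -/
theorem result (μ : Cardinal.{u}) (hμ : Cardinal.aleph0 < μ)
    (hcof : μ.ord.cof = Cardinal.aleph0) :
    2 ^ μ = max (domNum μ) (cofSub Cardinal.continuum μ) :=
  two_pow_eq_max hμ hcof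

end Pool.Agent.Lib.MP_856180_lc.Old.Continuum
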