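import Mathlib
import Pool.Agent.Lib.MP_856180_lc.PcfMain

set_option autoImplicit false

namespace Pool.Agent.Lib.MP_856180_lc.Old.LargePcf

open Pool.Agent.Lib.MP_856180_lc

universe u

/-- Let `μ` be uncountable of countable cofinality with dominating number `d` below `2 ^ μ`. Then
there is a set of fewer than `μ` regular cardinals in the interval `(μ, d]` whose ultraproducts
have at least `μ` different cofinalities in the interval `(μ, d]`. -/
theorem result (μ : Cardinal.{u}) (hμ : Cardinal.aleph0 < μ)
    (hcof : μ.ord.cof = Cardinal.aleph0) (h : domNum μ < 2 ^ μ) :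
    ∃ (ι : Type u) (a : ι → Cardinal.{u}), Function.Injective a ∧ Cardinal.mk ι < μ ∧
      (∀ i, (a i).IsRegular ∧ μ < a i ∧ a i ≤ domNum μ) ∧
      ∃ U : μ.out → Ultrafilter ι, Function.Injective (fun x => ucof a (U x)) ∧
        ∀ x, μ < ucof a (U x) ∧ ucof a (U x) ≤ domNum μ :=
  pcf_failure hμ hcof h

end Pool.Agent.Lib.MP_856180_lc.Old.LargePcf
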