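import Mathlib
import Pool.Agent.Lib.MP_856180_lc.Main

set_option autoImplicit false

namespace Pool.Agent.Lib.MP_856180_lc.Old.NoFixedPoint

open Pool.Agent.Lib.MP_856180_lc

universe u

/-- Let `μ` be uncountable with `2 ^ ℵ₀ ≤ μ^{+n}`. If `a ^ ℵ₀ ≤ μ` for all `a < θ₀` and the aleph
function has no fixed point in the interval `(θ₀, μ]`, then `2 ^ μ` is the maximum of the
dominating number and `2 ^ ℵ₀`. -/
theorem result (μ θ₀ : Cardinal.{u}) (n : ℕ) (hμ : Cardinal.aleph0 < μ)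
    (hc : Cardinal.continuum ≤ Order.succ^[n] μ) (h0 : θ₀ ≤ μ)
    (hpow : ∀ a < θ₀, a ^ Cardinal.aleph0 ≤ μ)
    (hfix : ∀ θ : Cardinal.{u}, θ₀ < θ → θ ≤ μ → Cardinal.aleph θ.ord ≠ θ) :
    2 ^ μ = max (domNum μ) Cardinal.continuum :=
  domNum_of_no_fixed hμ hc h0 hpow
    (fun θ h1 h2 => lt_of_le_of_ne (Cardinal.le_aleph_ord θ) (hfix θ h1 h2).symm)

end Pool.Agent.Lib.MP_856180_lc.Old.NoFixedPoint
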